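import Pool.Agent.Helper21_D2.Ann
import Pool.Agent.Helper21_D1.Frw

/-!
# Squad PP, part D2: modules TRF and EBQ
-/

open scoped BigOperators

set_option linter.unusedSectionVars false

namespace Pool.Agent.PP.CD2.H21

open Pool.Agent.Helper51_AWC Pool.Agent.Helper79_WRA Pool.Agent.PP Pool.Agent.PP.H20

variable {F : Type} [Field F] {G : Type} [Group G] [Finite G] {V V' : Type} [AddCommGroup V]
  [Module F V] [AddCommGroup V'] [Module F V']

theorem evV_mulF (ρ : Representation F G V) (a b : G → F) (v : V) :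
    evV ρ (mulF a b) v = evV ρ a (evV ρ b v) := by
  have := Fintype.ofFinite G
  rw [D66.evV_apply, D66.evV_apply]
  calc ∑ g, mulF a b g • ρ g v = ∑ g, ∑ t, (a t * b (t⁻¹ * g)) • ρ g v := by
        refine Finset.sum_congr rfl fun g _ => ?_
        rw [mulF_fin, Finset.sum_smul]
    _ = ∑ t, ∑ g, (a t * b (t⁻¹ * g)) • ρ g v := Finset.sum_comm
    _ = ∑ t, a t • ρ t (evV ρ b v) := by
        refine Finset.sum_congr rfl fun t _ => ?_
        rw [D66.evV_apply, map_sum, Finset.smul_sum]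
        symm
        refine Fintype.sum_equiv (Equiv.mulLeft t) _ _ fun s => ?_
        change a t • ρ t (b s • ρ s v) = (a t * b (t⁻¹ * (t * s))) • ρ (t * s) v
        rw [inv_mul_cancel_left, map_smul, map_mul, smul_smul]
        rfl

theorem evV_pwF (ρ : Representation F G V) (w a : G → F) (s : ℕ) (v : V) :
    evV ρ (pwF w s a) v = ((evV ρ w) ^ s) (evV ρ a v) := by
  induction s with
  | zero => rfl
  | succ s ih => rw [pwF_succ, evV_mulF, ih, pow_succ']; rfl

/-- `b` and `w` are supported on `C` -/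
theorem ums_sp {C : Subgroup G} {b w : G → F} {q : ℕ} (h : UMS C b w q) :
    SpF C b ∧ SpF C w := by
  obtain ⟨m, e, i, hU1, hU2, hU3, hU4⟩ := h
  refine ⟨?_, ?_⟩
  · rw [← hU3]
    exact sp_sum _ fun t _ => (hU1 t).sb
  · rw [← mem_spA, ← hU4, toMA_mulF, ← hU3, toMA_sum, Finset.sum_mul]
    refine Subalgebra.sum_mem _ fun t _ => ?_
    rw [← toMA_mulF]
    exact mem_spA.2 (hU1 t).sw

open Classical in
/-- the coefficient functions -/
noncomputable def xf (K : Subgroup G) (ρ : Representation F G V) (θ : V →ₗ[F] F) (v : V) : G → F :=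
  fun g => if g ∈ K then θ (ρ g⁻¹ v) else 0

theorem mulF_xf {K C : Subgroup G} (hCK : C ≤ K) (ρ : Representation F G V) (θ : V →ₗ[F] F)
    {a : G → F} (ha : SpF C a) (v : V) : mulF a (xf K ρ θ v) = xf K ρ θ (evV ρ a v) := by
  classical
  have := Fintype.ofFinite G
  funext g
  rw [mulF_fin]
  have h1 : ∀ t, a t * xf K ρ θ v (t⁻¹ * g) =
      (if g ∈ K then θ (ρ g⁻¹ (a t • ρ t v)) else 0) := by
    intro t
    by_cases ht : t ∈ C
    · unfold xf
      by_cases hg : g ∈ K
      · rw [if_pos (K.mul_mem (K.inv_mem (hCK ht)) hg), if_pos hg, mul_inv_rev, inv_inv, map_mul,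
          Module.End.mul_apply, map_smul, map_smul, smul_eq_mul]
      · rw [if_neg, if_neg hg, mul_zero]
        intro h
        exact hg ((K.mul_mem_cancel_left (K.inv_mem (hCK ht))).1 h)
    · rw [ha t ht, zero_mul, zero_smul, map_zero, map_zero, ite_self]
  rw [Finset.sum_congr rfl fun t _ => h1 t]
  unfold xf
  split_ifs with hg
  · rw [D66.evV_apply, map_sum, map_sum]
  · exact Finset.sum_const_zero

theorem trf : TrfStmt := by
  classical
  intro F _ G _ _ C K b w q hU hCK V V' _ _ _ _ _ ρ ρ' θ j hj v hbv hwv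
  have := Fintype.ofFinite G
  have := Fintype.ofFinite K
  obtain ⟨hb, hw⟩ := ums_sp hU
  let B := Module.finBasis F V'
  have h1 : ∀ β, ∃ x' : G → F, xf K ρ (B.coord β ∘ₗ θ) v = pwF w (q - j) x' := by
    intro β
    have e1 : ∀ s : ℕ, pwF w s (xf K ρ (B.coord β ∘ₗ θ) v) =
        xf K ρ (B.coord β ∘ₗ θ) (((evV ρ w) ^ s) v) := by
      intro s
      induction s with
      | zero => rfl
      | succ s ih => rw [pwF_succ, ih, mulF_xf hCK ρ _ hw, pow_succ']; rfl
    obtain ⟨x', _, h⟩ := ann F G C b w q hU j hj (xf K ρ (B.coord β ∘ₗ θ) v)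
      (by rw [mulF_xf hCK ρ _ hb, hbv])
      (by
        rw [e1, hwv]
        funext g
        unfold xf
        rw [map_zero, map_zero, ite_self]
        rfl)
    exact ⟨x', h⟩
  choose X hX using h1
  have h2 : trP ρ ρ' K θ v = ∑ β, evV ρ' (xf K ρ (B.coord β ∘ₗ θ) v) (B β) := by
    have e2 : trP ρ ρ' K θ v = ∑ g : G, (if g ∈ K then ρ' g (θ (ρ g⁻¹ v)) else 0) := by
      unfold trP
      rw [finsum_eq_sum_of_fintype, LinearMap.sum_apply]
      calc _ = ∑ g ∈ (Finset.univ.filter fun g : G => g ∈ K), ρ' g (θ (ρ g⁻¹ v)) := by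
            symm
            refine Finset.sum_subtype _ (fun x => ?_) (fun g => ρ' g (θ (ρ g⁻¹ v)))
            rw [Finset.mem_filter]
            exact ⟨fun h => h.2, fun h => ⟨Finset.mem_univ _, h⟩⟩
        _ = _ := Finset.sum_filter _ _
    rw [e2]
    have e3 : ∀ β, evV ρ' (xf K ρ (B.coord β ∘ₗ θ) v) (B β) =
        ∑ g : G, xf K ρ (B.coord β ∘ₗ θ) v g • ρ' g (B β) := fun β => D66.evV_apply _ _ _
    rw [Finset.sum_congr rfl fun β _ => e3 β, Finset.sum_comm]
    refine Finset.sum_congr rfl fun g _ => ?_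
    unfold xf
    split_ifs with hg
    · conv_lhs => rw [← B.sum_repr (θ (ρ g⁻¹ v)), map_sum]
      refine Finset.sum_congr rfl fun β _ => ?_
      rw [map_smul]
      rfl
    · simp only [zero_smul, Finset.sum_const_zero]
  rw [h2]
  refine Submodule.sum_mem _ fun β _ => ?_
  rw [hX β, evV_pwF]
  exact ⟨_, rfl⟩

/-- in a cyclic `ℓ`-group every nontrivial element has a power of order `ℓ` which generates the
subgroup of order `ℓ` -/
theorem mem_zpow_of_cyclic {ℓ : ℕ} [hℓ : Fact ℓ.Prime] {P : Subgroup G} (hc : IsCyclic P) {n : ℕ}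
    (hP : Nat.card P = ℓ ^ (n + 1)) {y p : G} (hy : y ∈ P) (hyo : orderOf y = ℓ) (hp : p ∈ P)
    (hp1 : p ≠ 1) : y ∈ Subgroup.zpowers p := by
  classical
  have := Fintype.ofFinite P
  have hdvd : orderOf p ∣ ℓ ^ (n + 1) := by
    rw [← hP]
    exact Subgroup.orderOf_dvd_natCard P hp
  obtain ⟨k, _, hk⟩ := (Nat.dvd_prime_pow hℓ.out).1 hdvd
  have hk0 : k ≠ 0 := by
    rintro rfl
    rw [pow_zero, orderOf_eq_one_iff] at hk
    exact hp1 hk
  obtain ⟨k', rfl⟩ := Nat.exists_eq_succ_of_ne_zero hk0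
  have hzo : orderOf (p ^ ℓ ^ k') = ℓ := by
    rw [orderOf_pow_of_dvd (pow_ne_zero _ hℓ.out.ne_zero) (by
      rw [hk]; exact pow_dvd_pow _ (Nat.le_succ k')), hk, Nat.pow_div (Nat.le_succ k') hℓ.out.pos]
    simp
  have hzP : p ^ ℓ ^ k' ∈ P := P.pow_mem hp _
  -- the elements of order dividing `ℓ`
  have h1 := IsCyclic.card_pow_eq_one_le (α := P) hℓ.out.pos
  obtain ⟨Z, hZ⟩ : ∃ Z : Finset P, Z = (Finset.range ℓ).image
      (fun r => (⟨p ^ ℓ ^ k', hzP⟩ : P) ^ r) := ⟨_, rfl⟩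
  have hZc : Z.card = ℓ := by
    rw [hZ, Finset.card_image_of_injOn, Finset.card_range]
    intro r hr s hs hrs
    have h2 : (p ^ ℓ ^ k') ^ r = (p ^ ℓ ^ k') ^ s := by
      have := congrArg (fun t : P => (t : G)) hrs
      simpa using this
    have h3 := pow_injOn_Iio_orderOf (x := p ^ ℓ ^ k')
    rw [hzo] at h3
    exact h3 (by simpa using hr) (by simpa using hs) h2
  have hZs : Z ⊆ Finset.univ.filter (fun a : P => a ^ ℓ = 1) := by
    intro a ha
    rw [hZ, Finset.mem_image] at ha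
    obtain ⟨r, _, rfl⟩ := ha
    rw [Finset.mem_filter]
    refine ⟨Finset.mem_univ _, ?_⟩
    rw [← pow_mul, mul_comm, pow_mul]
    have h4 : (⟨p ^ ℓ ^ k', hzP⟩ : P) ^ ℓ = 1 := by
      apply Subtype.ext
      change (p ^ ℓ ^ k') ^ ℓ = 1
      conv_lhs => rw [← hzo]
      rw [hzo]
      have := pow_orderOf_eq_one (p ^ ℓ ^ k')
      rwa [hzo] at this
    rw [h4, one_pow]
  have hZe := Finset.eq_of_subset_of_card_le hZs (by rw [hZc]; exact h1)
  have hyZ : (⟨y, hy⟩ : P) ∈ Z := by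
    rw [hZe, Finset.mem_filter]
    refine ⟨Finset.mem_univ _, ?_⟩
    apply Subtype.ext
    change y ^ ℓ = 1
    have := pow_orderOf_eq_one y
    rwa [hyo] at this
  rw [hZ, Finset.mem_image] at hyZ
  obtain ⟨r, _, hr⟩ := hyZ
  have h5 : (p ^ ℓ ^ k') ^ r = y := by
    have := congrArg (fun t : P => (t : G)) hr
    simpa using this
  rw [← h5, ← pow_mul]
  exact Subgroup.pow_mem _ (Subgroup.mem_zpowers p) _

/-- conjugation -/
@[reducible] def cact (P : Subgroup G) : MulAction P G where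
  smul k g := (k : G) * g * (k : G)⁻¹
  one_smul g := by
    change (1 : G) * g * (1 : G)⁻¹ = g
    simp
  mul_smul k k' g := by
    change ((k * k' : P) : G) * g * ((k * k' : P) : G)⁻¹ =
      (k : G) * ((k' : G) * g * (k' : G)⁻¹) * (k : G)⁻¹
    push_cast
    group

theorem ebq : EbqStmt := by
  classical
  intro ℓ hℓ F _ G _ _ n P y₁ hc hP hy hyo V _ _ ρ a ha
  have := Fintype.ofFinite G
  have := Fintype.ofFinite P
  -- conjugation by `P` stabilises the centraliser of `y₁`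
  have hcomm : ∀ p ∈ P, p * y₁ = y₁ * p := by
    intro p hp
    obtain ⟨x, hx⟩ := hc.exists_generator
    obtain ⟨r, hr⟩ := Subgroup.mem_zpowers_iff.1 (hx ⟨p, hp⟩)
    obtain ⟨s, hs⟩ := Subgroup.mem_zpowers_iff.1 (hx ⟨y₁, hy⟩)
    have h : (⟨p, hp⟩ : P) * ⟨y₁, hy⟩ = ⟨y₁, hy⟩ * ⟨p, hp⟩ := by
      rw [← hr, ← hs, ← zpow_add, ← zpow_add, add_comm]
    exact congrArg (fun t : P => (t : G)) h
  have hmem : ∀ g : G, g ∈ Subgroup.centralizer (Subgroup.zpowers y₁ : Set G) ↔
      g * y₁ = y₁ * g := by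
    intro g
    rw [Subgroup.mem_centralizer_iff]
    constructor
    · intro h
      exact (h y₁ (Subgroup.mem_zpowers y₁)).symm
    · rintro h _ ⟨k, rfl⟩
      have hc : Commute g y₁ := h
      exact (hc.zpow_right k).eq.symm
  have hstab : ∀ p ∈ P, ∀ g : G, g ∉ Subgroup.centralizer (Subgroup.zpowers y₁ : Set G) →
      p * g * p⁻¹ ∉ Subgroup.centralizer (Subgroup.zpowers y₁ : Set G) := by
    intro p hp g hg h
    apply hg
    rw [hmem] at h ⊢
    have h1 : p⁻¹ * y₁ = y₁ * p⁻¹ := hcomm _ (P.inv_mem hp)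
    have h2 := hcomm p hp
    have h3 : p * (g * y₁) * p⁻¹ = p * (y₁ * g) * p⁻¹ := by
      calc p * (g * y₁) * p⁻¹ = p * g * (y₁ * p⁻¹) := by group
        _ = p * g * (p⁻¹ * y₁) := by rw [h1]
        _ = p * g * p⁻¹ * y₁ := by group
        _ = y₁ * (p * g * p⁻¹) := h
        _ = (y₁ * p) * g * p⁻¹ := by group
        _ = (p * y₁) * g * p⁻¹ := by rw [h2]
        _ = p * (y₁ * g) * p⁻¹ := by group
    exact mul_left_cancel (mul_right_cancel h3)
  obtain ⟨d, hd1, hd2⟩ := @D1H21.frw F _ P G _ _ _ (cact P)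
    {g | g ∉ Subgroup.centralizer (Subgroup.zpowers y₁ : Set G)}
    (fun p g hg => hstab p p.2 g hg)
    (by
      intro p g hg hpg
      have hpg' : (p : G) * g * (p : G)⁻¹ = g := hpg
      by_contra hp1
      have hp1' : (p : G) ≠ 1 := fun h => hp1 (Subtype.ext h)
      apply hg
      rw [hmem]
      obtain ⟨k, hk⟩ := mem_zpow_of_cyclic hc hP hy hyo p.2 hp1'
      have h1 : Commute g (p : G) := by
        have h2 : (p : G) * g = g * p := mul_inv_eq_iff_eq_mul.1 hpg'
        exact h2.symm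
      have h3 := (h1.zpow_right k).eq
      change (p : G) ^ k = y₁ at hk
      rwa [hk] at h3)
  have hd2' : ∀ g, g ∉ Subgroup.centralizer (Subgroup.zpowers y₁ : Set G) →
      ∑ p : P, d ((p : G) * g * (p : G)⁻¹) = 1 := by
    intro g hg
    have h := hd2 g hg
    rw [finsum_eq_sum_of_fintype] at h
    exact h
  refine ⟨evV ρ (fun g => d g * a g), ?_⟩
  apply LinearMap.ext
  intro v
  have h1 : trP ρ ρ P (evV ρ (fun g => d g * a g)) v =
      ∑ p : P, ∑ g : G, (d ((p : G)⁻¹ * g * p) * a g) • ρ g v := by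
    unfold trP
    rw [finsum_eq_sum_of_fintype, LinearMap.sum_apply]
    refine Finset.sum_congr rfl fun p _ => ?_
    change ρ p (evV ρ (fun g => d g * a g) (ρ (p : G)⁻¹ v)) = _
    rw [D66.evV_apply, map_sum]
    refine Fintype.sum_equiv (MulAut.conj (p : G)).toEquiv _ _ fun g => ?_
    change ρ p ((d g * a g) • ρ g (ρ (p : G)⁻¹ v)) =
      (d ((p : G)⁻¹ * (p * g * (p : G)⁻¹) * p) * a (p * g * (p : G)⁻¹)) •
        ρ (p * g * (p : G)⁻¹) v
    rw [ha p p.2 g, map_smul, map_mul, map_mul]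
    have h2 : (p : G)⁻¹ * (p * g * (p : G)⁻¹) * p = g := by group
    rw [h2]
    rfl
  rw [h1, Finset.sum_comm, LinearMap.sub_apply, D66.evV_apply, D66.evV_apply,
    ← Finset.sum_sub_distrib]
  refine Finset.sum_congr rfl fun g _ => ?_
  rw [← Finset.sum_smul, ← Finset.sum_mul, ← sub_smul]
  congr 1
  by_cases hg : g ∈ Subgroup.centralizer (Subgroup.zpowers y₁ : Set G)
  · have h2 : bY y₁ a g = a g := by
      unfold bY br
      rw [if_pos hg]
    rw [h2, sub_self]
    have h3 : ∀ p : P, d ((p : G)⁻¹ * g * p) = 0 := by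
      intro p
      apply hd1
      intro h
      have h4 := hstab p p.2 _ h
      apply h4
      have h5 : (p : G) * ((p : G)⁻¹ * g * p) * (p : G)⁻¹ = g := by group
      rwa [h5]
    rw [Finset.sum_eq_zero fun p _ => h3 p, zero_mul]
  · have h2 : bY y₁ a g = 0 := by
      unfold bY br
      rw [if_neg hg]
    rw [h2, sub_zero]
    have h3 : ∑ p : P, d ((p : G)⁻¹ * g * p) = 1 := by
      rw [← hd2' g hg]
      refine Fintype.sum_equiv (Equiv.inv P) _ _ fun p => ?_
      simp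
    rw [h3, one_mul]

end Pool.Agent.PP.CD2.H21
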