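import Pool.Agent.Helper21_D2.Base

/-!
# Squad PP, part D2: modules ANN and ANR
-/

open scoped BigOperators

set_option linter.unusedSectionVars false

namespace Pool.Agent.PP.CD2.H21

open Pool.Agent.Helper51_AWC Pool.Agent.Helper79_WRA Pool.Agent.PP Pool.Agent.PP.H20

variable {F : Type} [Field F] {G : Type} [Group G] [Finite G]

/-- annihilators in the functions supported on `C` -/
theorem ann_sp {C : Subgroup G} {b w i : G → F} {q : ℕ} (h : UMF C b w i q) {j : ℕ} {a : G → F}
    (ha : SpF C a) (hba : mulF b a = a) (hja : pwF w j a = 0) :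
    ∃ a' : G → F, SpF C a' ∧ a = pwF w (q - j) a' := by
  obtain ⟨m, x, y, hxy, hfull⟩ := h.full
  have h1 := core (F := F) (spA F C) (e := toMA b) (w := toMA w) (i := toMA i) (q := q)
    (mem_spA.2 h.sw) (mem_spA.2 h.si) (commute_spA h.cb) (commute_spA h.cw)
    (by rw [← toMA_mulF, h.bi]) (by rw [← toMA_pwF, h.nil, toMA_zero])
    (by rw [← toMA_pwF]; intro h0; exact h.nz (toMA_injective (h0.trans toMA_zero.symm)))
    (by
      rintro _ ⟨a, ha, rfl⟩
      obtain ⟨α, hα⟩ := h.loc a ha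
      refine ⟨α, ?_⟩
      rw [← toMA_mulF, ← toMA_mulF, hα, toMA_sum]
      refine Finset.sum_congr rfl fun s _ => ?_
      rw [toMA_smul, toMA_pwF])
    (x := fun k => toMA (x k)) (y := fun k => toMA (y k))
    (fun k => mem_spA.2 (hxy k).1) (fun k => mem_spA.2 (hxy k).2)
    (by
      rw [← hfull, toMA_sum]
      refine Finset.sum_congr rfl fun k _ => ?_
      rw [toMA_mulF, toMA_mulF])
    (j := j) (a := toMA a) (mem_spA.2 ha) (by rw [← toMA_mulF, hba])
    (by rw [← toMA_pwF, hja, toMA_zero])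
  obtain ⟨_, ⟨a', ha', rfl⟩, h2⟩ := h1
  refine ⟨a', ha', toMA_injective ?_⟩
  rw [h2, toMA_pwF]

open Classical in
/-- the part of `x` on the coset `C g` -/
noncomputable def res (C : Subgroup G) (g : G) (x : G → F) : G → F :=
  fun c => if c ∈ C then x (c * g) else 0

open Classical in
/-- the part of `x` on the coset `g C` -/
noncomputable def resl (C : Subgroup G) (g : G) (x : G → F) : G → F :=
  fun c => if c ∈ C then x (g * c) else 0

theorem sp_res (C : Subgroup G) (g : G) (x : G → F) : SpF C (res C g x) := by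
  intro c hc
  unfold res
  rw [if_neg hc]

theorem sp_resl (C : Subgroup G) (g : G) (x : G → F) : SpF C (resl C g x) := by
  intro c hc
  unfold resl
  rw [if_neg hc]

theorem mulF_res {C : Subgroup G} {a : G → F} (ha : SpF C a) (g : G) (x : G → F) :
    mulF a (res C g x) = res C g (mulF a x) := by
  have := Fintype.ofFinite G
  funext c
  by_cases hc : c ∈ C
  · have h1 : res C g (mulF a x) c = mulF a x (c * g) := by unfold res; rw [if_pos hc]
    rw [h1, mulF_fin, mulF_fin]
    refine Finset.sum_congr rfl fun t _ => ?_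
    by_cases ht : t ∈ C
    · have h2 : t⁻¹ * c ∈ C := C.mul_mem (C.inv_mem ht) hc
      unfold res
      rw [if_pos h2, mul_assoc]
    · rw [ha t ht, zero_mul, zero_mul]
  · rw [sp_res C g _ c hc]
    exact sp_mulF ha (sp_res C g x) c hc

theorem resl_mulF {C : Subgroup G} {a : G → F} (ha : SpF C a) (g : G) (x : G → F) :
    mulF (resl C g x) a = resl C g (mulF x a) := by
  have := Fintype.ofFinite G
  funext c
  by_cases hc : c ∈ C
  · have h1 : resl C g (mulF x a) c = mulF x a (g * c) := by unfold resl; rw [if_pos hc]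
    rw [h1, mulF_fin, mulF_fin]
    refine Fintype.sum_equiv (Equiv.mulLeft g) _ _ fun t => ?_
    change resl C g x t * a (t⁻¹ * c) = x (g * t) * a ((g * t)⁻¹ * (g * c))
    have h3 : (g * t)⁻¹ * (g * c) = t⁻¹ * c := by group
    rw [h3]
    by_cases ht : t ∈ C
    · unfold resl
      rw [if_pos ht]
    · rw [ha (t⁻¹ * c), mul_zero, mul_zero]
      intro h
      exact ht (by simpa using C.mul_mem hc (C.inv_mem h))
  · rw [sp_resl C g _ c hc]
    exact sp_mulF (sp_resl C g x) ha c hc

theorem pwF_res {C : Subgroup G} {w : G → F} (hw : SpF C w) (s : ℕ) (g : G) (x : G → F) :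
    pwF w s (res C g x) = res C g (pwF w s x) := by
  induction s with
  | zero => rfl
  | succ s ih => rw [pwF_succ, pwF_succ, ih, mulF_res hw]

theorem pwR_resl {C : Subgroup G} {w : G → F} (hw : SpF C w) (s : ℕ) (g : G) (x : G → F) :
    pwR w s (resl C g x) = resl C g (pwR w s x) := by
  induction s with
  | zero => rfl
  | succ s ih => rw [pwR_succ, pwR_succ, ih, resl_mulF hw]

theorem res_zero (C : Subgroup G) (g : G) : res C g (0 : G → F) = 0 := by
  funext c
  unfold res
  rw [Pi.zero_apply, Pi.zero_apply, ite_self]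

theorem resl_zero (C : Subgroup G) (g : G) : resl C g (0 : G → F) = 0 := by
  funext c
  unfold resl
  rw [Pi.zero_apply, Pi.zero_apply, ite_self]

/-- representatives of the right cosets -/
theorem exists_rep (C : Subgroup G) : ∃ r : G → G, (∀ g, g * (r g)⁻¹ ∈ C) ∧
    ∀ c ∈ C, ∀ g, r (c * g) = r g := by
  refine ⟨fun g => (Quotient.mk (QuotientGroup.rightRel C) g).out, fun g => ?_, fun c hc g => ?_⟩
  · have h : (QuotientGroup.rightRel C) (Quotient.mk (QuotientGroup.rightRel C) g).out g :=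
      Quotient.exact (Quotient.out_eq _)
    rwa [QuotientGroup.rightRel_apply] at h
  · have h : Quotient.mk (QuotientGroup.rightRel C) (c * g) =
        Quotient.mk (QuotientGroup.rightRel C) g := by
      apply Quotient.sound
      change (QuotientGroup.rightRel C) (c * g) g
      rw [QuotientGroup.rightRel_apply, mul_inv_rev, mul_inv_cancel_left]
      exact C.inv_mem hc
    change (Quotient.mk (QuotientGroup.rightRel C) (c * g)).out = _
    rw [h]

/-- representatives of the left cosets -/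
theorem exists_repl (C : Subgroup G) : ∃ r : G → G, (∀ g, (r g)⁻¹ * g ∈ C) ∧
    ∀ c ∈ C, ∀ g, r (g * c) = r g := by
  obtain ⟨r, h1, h2⟩ := exists_rep C
  refine ⟨fun g => (r g⁻¹)⁻¹, fun g => ?_, fun c hc g => ?_⟩
  · have h := C.inv_mem (h1 g⁻¹)
    rw [mul_inv_rev, inv_inv] at h
    rw [inv_inv]
    rwa [inv_inv] at h
  · change (r (g * c)⁻¹)⁻¹ = _
    rw [mul_inv_rev, h2 _ (C.inv_mem hc)]

theorem mulF_glue {C : Subgroup G} {a : G → F} (ha : SpF C a) {r : G → G}
    (hr : ∀ c ∈ C, ∀ g, r (c * g) = r g) (X : G → G → F) :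
    mulF a (fun g => X (r g) (g * (r g)⁻¹)) = fun g => mulF a (X (r g)) (g * (r g)⁻¹) := by
  have := Fintype.ofFinite G
  funext g
  rw [mulF_fin, mulF_fin]
  refine Finset.sum_congr rfl fun t _ => ?_
  by_cases ht : t ∈ C
  · rw [hr _ (C.inv_mem ht), mul_assoc]
  · rw [ha t ht, zero_mul, zero_mul]

theorem glue_mulF {C : Subgroup G} {a : G → F} (ha : SpF C a) {r : G → G}
    (hr : ∀ c ∈ C, ∀ g, r (g * c) = r g) (X : G → G → F) :
    mulF (fun g => X (r g) ((r g)⁻¹ * g)) a = fun g => mulF (X (r g)) a ((r g)⁻¹ * g) := by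
  have := Fintype.ofFinite G
  funext g
  rw [mulF_fin, mulF_fin]
  refine Fintype.sum_equiv (Equiv.mulLeft (r g)⁻¹) _ _ fun t => ?_
  change X (r t) ((r t)⁻¹ * t) * a (t⁻¹ * g) =
    X (r g) ((r g)⁻¹ * t) * a (((r g)⁻¹ * t)⁻¹ * ((r g)⁻¹ * g))
  have h3 : ((r g)⁻¹ * t)⁻¹ * ((r g)⁻¹ * g) = t⁻¹ * g := by group
  rw [h3]
  by_cases ht : t⁻¹ * g ∈ C
  · have h4 := hr _ ht t
    rw [mul_inv_cancel_left] at h4
    rw [h4]
  · rw [ha _ ht, mul_zero, mul_zero]

theorem pwF_glue {C : Subgroup G} {w : G → F} (hw : SpF C w) {r : G → G}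
    (hr : ∀ c ∈ C, ∀ g, r (c * g) = r g) (X : G → G → F) (s : ℕ) :
    pwF w s (fun g => X (r g) (g * (r g)⁻¹)) = fun g => pwF w s (X (r g)) (g * (r g)⁻¹) := by
  induction s with
  | zero => rfl
  | succ s ih =>
    rw [pwF_succ, ih, mulF_glue hw hr (fun g => pwF w s (X g))]
    funext g
    rw [pwF_succ]

theorem pwR_glue {C : Subgroup G} {w : G → F} (hw : SpF C w) {r : G → G}
    (hr : ∀ c ∈ C, ∀ g, r (g * c) = r g) (X : G → G → F) (s : ℕ) :
    pwR w s (fun g => X (r g) ((r g)⁻¹ * g)) = fun g => pwR w s (X (r g)) ((r g)⁻¹ * g) := by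
  induction s with
  | zero => rfl
  | succ s ih =>
    rw [pwR_succ, ih, glue_mulF hw hr (fun g => pwR w s (X g))]
    funext g
    rw [pwR_succ]

theorem ann_umf {C : Subgroup G} {b w i : G → F} {q : ℕ} (h : UMF C b w i q) {j : ℕ} {x : G → F}
    (hbx : mulF b x = x) (hjx : pwF w j x = 0) :
    ∃ x' : G → F, mulF b x' = x' ∧ x = pwF w (q - j) x' := by
  have h1 : ∀ g : G, ∃ a' : G → F, SpF C a' ∧ res C g x = pwF w (q - j) a' := by
    intro g
    refine ann_sp h (sp_res C g x) ?_ ?_
    · exact (mulF_res h.sb g x).trans (congrArg (res C g) hbx)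
    · exact (pwF_res h.sw j g x).trans ((congrArg (res C g) hjx).trans (res_zero C g))
  choose X hX1 hX2 using h1
  obtain ⟨r, hr1, hr2⟩ := exists_rep C
  have h2 : x = pwF w (q - j) (fun g => X (r g) (g * (r g)⁻¹)) := by
    rw [pwF_glue h.sw hr2]
    funext g
    rw [← hX2]
    unfold res
    rw [if_pos (hr1 g), inv_mul_cancel_right]
  refine ⟨mulF b (fun g => X (r g) (g * (r g)⁻¹)), ?_, ?_⟩
  · rw [← mulF_assoc, h.bb]
  · rw [← hbx, h2]
    apply toMA_injective
    rw [toMA_pwF, toMA_mulF, toMA_mulF, toMA_pwF, ← mul_assoc, ← mul_assoc]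
    have h3 : Commute (toMA w) (toMA b) := commute_spA h.cw _ (mem_spA.2 h.sb)
    rw [(h3.pow_left (q - j)).eq]

theorem ann : AnnStmt := by
  intro F _ G _ _ C b w q hU j hj x hbx hjx
  obtain ⟨m, e, i, hU1, hU2, hU3, hU4⟩ := hU
  have hew : ∀ t, toMA (e t) * toMA w = toMA w * toMA (e t) := by
    intro t
    have h1 : toMA w = ∑ s, toMA (e s) * toMA w := by
      rw [← Finset.sum_mul, ← toMA_sum, hU3, ← toMA_mulF, hU4]
    have h2 : toMA w ∈ spA F C := by
      rw [h1]
      refine Subalgebra.sum_mem _ fun s _ => ?_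
      rw [← toMA_mulF]
      exact mem_spA.2 (hU1 s).sw
    exact commute_spA (hU1 t).cb _ h2
  have hee : ∀ t, toMA (e t) * toMA (e t) = toMA (e t) := by
    intro t
    rw [← toMA_mulF, (hU1 t).bb]
  have hpow : ∀ t : Fin m, ∀ n : ℕ, ∀ z : MonoidAlgebra F G,
      (toMA (e t) * toMA w) ^ n * (toMA (e t) * z) = toMA w ^ n * (toMA (e t) * z) := by
    intro t n z
    induction n with
    | zero => rw [pow_zero, pow_zero]
    | succ n ih =>
      have h5 : Commute (toMA (e t)) (toMA w) := hew t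
      calc (toMA (e t) * toMA w) ^ (n + 1) * (toMA (e t) * z)
          = (toMA (e t) * toMA w) * ((toMA (e t) * toMA w) ^ n * (toMA (e t) * z)) := by
            rw [pow_succ', mul_assoc]
        _ = (toMA (e t) * toMA w) * (toMA w ^ n * (toMA (e t) * z)) := by rw [ih]
        _ = (toMA (e t) * (toMA w ^ (n + 1))) * (toMA (e t) * z) := by
            rw [pow_succ']; noncomm_ring
        _ = (toMA w ^ (n + 1) * toMA (e t)) * (toMA (e t) * z) := by
            rw [(h5.pow_right (n + 1)).eq]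
        _ = toMA w ^ (n + 1) * ((toMA (e t) * toMA (e t)) * z) := by noncomm_ring
        _ = _ := by rw [hee]
  have h1 : ∀ t : Fin m, ∃ x' : G → F, mulF (e t) x' = x' ∧
      mulF (e t) x = pwF (mulF (e t) w) (q - j) x' := by
    intro t
    refine ann_umf (hU1 t) (j := j) ?_ ?_
    · rw [← mulF_assoc, (hU1 t).bb]
    · apply toMA_injective
      rw [toMA_pwF, toMA_mulF, toMA_mulF, hpow, toMA_zero]
      have h5 : Commute (toMA (e t)) (toMA w) := hew t
      rw [← mul_assoc, ← (h5.pow_right j).eq, mul_assoc, ← toMA_pwF, hjx, toMA_zero, mul_zero]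
  choose X hX1 hX2 using h1
  have hX3 : ∀ t, toMA (e t) * toMA (X t) = toMA (X t) := by
    intro t
    rw [← toMA_mulF, hX1]
  refine ⟨∑ t, X t, ?_, ?_⟩
  · apply toMA_injective
    rw [toMA_mulF, ← hU3, toMA_sum, toMA_sum, Finset.sum_mul]
    refine Finset.sum_congr rfl fun t _ => ?_
    rw [Finset.mul_sum, Finset.sum_eq_single t]
    · exact hX3 t
    · intro s _ hst
      rw [← hX3 s, ← mul_assoc, ← toMA_mulF, hU2 t s (Ne.symm hst), toMA_zero, zero_mul]
    · intro h
      exact absurd (Finset.mem_univ _) h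
  · apply toMA_injective
    rw [toMA_pwF, toMA_sum, Finset.mul_sum]
    calc toMA x = ∑ t, toMA (mulF (e t) x) := by
          rw [← toMA_sum]
          congr 1
          apply toMA_injective
          rw [toMA_sum]
          conv_lhs => rw [← hbx, toMA_mulF, ← hU3, toMA_sum, Finset.sum_mul]
          exact Finset.sum_congr rfl fun t _ => (toMA_mulF _ _).symm
      _ = _ := by
          refine Finset.sum_congr rfl fun t _ => ?_
          rw [hX2, toMA_pwF, toMA_mulF]
          conv_lhs => rw [← hX3 t]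
          rw [hpow, hX3]

theorem anr : AnrStmt := by
  intro F _ G _ _ C b w i q h j hj x hxi hjx
  have hib : mulF i b = i := by
    rw [mulF_comm_sp h.si h.cb, h.bi]
  have hxb : mulF x b = x := by
    conv_lhs => rw [← hxi, mulF_assoc, hib, hxi]
  have h1 : ∀ g : G, ∃ a' : G → F, SpF C a' ∧ resl C g x = pwR w (q - j) a' := by
    intro g
    have e1 : mulF b (resl C g x) = resl C g x := by
      rw [← mulF_comm_sp (sp_resl C g x) h.cb, resl_mulF h.sb, hxb]
    have e2 : ∀ (n : ℕ) (a : G → F), SpF C a → pwF w n a = pwR w n a := by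
      intro n a ha
      apply toMA_injective
      rw [toMA_pwF, toMA_pwR]
      have h3 : Commute (toMA w) (toMA a) := commute_spA h.cw _ (mem_spA.2 ha)
      exact (h3.pow_left n).eq
    obtain ⟨a', ha', h2⟩ := ann_sp h (j := j) (sp_resl C g x) e1
      (by rw [e2 _ _ (sp_resl C g x), pwR_resl h.sw, hjx, resl_zero])
    exact ⟨a', ha', by rw [h2, e2 _ _ ha']⟩
  choose X hX1 hX2 using h1
  obtain ⟨r, hr1, hr2⟩ := exists_repl C
  have h2 : x = pwR w (q - j) (fun g => X (r g) ((r g)⁻¹ * g)) := by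
    rw [pwR_glue h.sw hr2]
    funext g
    rw [← hX2]
    unfold resl
    rw [if_pos (hr1 g), mul_inv_cancel_left]
  refine ⟨mulF (fun g => X (r g) ((r g)⁻¹ * g)) i, ?_, ?_⟩
  · rw [mulF_assoc, h.ii]
  · apply toMA_injective
    rw [← hxi, toMA_pwR, toMA_mulF, toMA_mulF]
    conv_lhs => rw [h2, toMA_pwR]
    have h3 : Commute (toMA w) (toMA i) := commute_spA h.cw _ (mem_spA.2 h.si)
    rw [mul_assoc, mul_assoc, (h3.pow_left (q - j)).eq]

end Pool.Agent.PP.CD2.H21
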