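import Pool.Agent.Helper66_D2.Stmts
import Pool.Agent.Helper66_D1.Tool
import Pool.Agent.Helper20_PP.Fun

/-!
# Squad PP, part D2: basic tools for elements of the group ring supported on a subgroup
-/

open scoped BigOperators

set_option linter.unusedSectionVars false

namespace Pool.Agent.PP.CD2.H21

open Pool.Agent.Helper51_AWC Pool.Agent.Helper79_WRA Pool.Agent.PP Pool.Agent.PP.H20

variable {F : Type} [Field F] {G : Type} [Group G] [Finite G]

theorem toMA_sum {ι : Type*} (s : Finset ι) (f : ι → G → F) :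
    toMA (∑ k ∈ s, f k) = ∑ k ∈ s, toMA (f k) :=
  map_sum (maE (F := F) (H := G)) f s

theorem toMA_pwF (w : G → F) (s : ℕ) (a : G → F) : toMA (pwF w s a) = toMA w ^ s * toMA a := by
  induction s with
  | zero => rw [pow_zero, one_mul]; rfl
  | succ s ih =>
    have h : pwF w (s + 1) a = mulF w (pwF w s a) := by
      unfold pwF
      rw [Function.iterate_succ_apply']
    rw [h, toMA_mulF, ih, pow_succ', mul_assoc]

theorem toMA_pwR (w : G → F) (s : ℕ) (a : G → F) : toMA (pwR w s a) = toMA a * toMA w ^ s := by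
  induction s with
  | zero => rw [pow_zero, mul_one]; rfl
  | succ s ih =>
    have h : pwR w (s + 1) a = mulF (pwR w s a) w := by
      unfold pwR
      rw [Function.iterate_succ_apply']
    rw [h, toMA_mulF, ih, pow_succ, mul_assoc]

theorem pwF_zero (w a : G → F) : pwF w 0 a = a := rfl

theorem pwF_succ (w : G → F) (s : ℕ) (a : G → F) : pwF w (s + 1) a = mulF w (pwF w s a) := by
  unfold pwF
  rw [Function.iterate_succ_apply']

theorem pwR_succ (w : G → F) (s : ℕ) (a : G → F) : pwR w (s + 1) a = mulF (pwR w s a) w := by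
  unfold pwR
  rw [Function.iterate_succ_apply']

theorem mulF_fin (a b : G → F) [Fintype G] (x : G) : mulF a b x = ∑ t, a t * b (t⁻¹ * x) := by
  unfold mulF
  rw [finsum_eq_sum_of_fintype]

/-- left multiplication commutes with right translation -/
theorem mulF_right (a x : G → F) (g : G) :
    mulF a (fun y => x (y * g)) = fun y => mulF a x (y * g) := by
  have := Fintype.ofFinite G
  funext y
  rw [mulF_fin, mulF_fin]
  refine Finset.sum_congr rfl fun t _ => ?_
  rw [mul_assoc]

/-- right multiplication commutes with left translation -/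
theorem mulF_left (a x : G → F) (g : G) :
    mulF (fun y => x (g * y)) a = fun y => mulF x a (g * y) := by
  have := Fintype.ofFinite G
  funext y
  rw [mulF_fin, mulF_fin]
  refine Fintype.sum_equiv (Equiv.mulLeft g) _ _ fun t => ?_
  change x (g * t) * a (t⁻¹ * y) = x (g * t) * a ((g * t)⁻¹ * (g * y))
  rw [mul_inv_rev, mul_assoc, inv_mul_cancel_left]

theorem mulF_comm_sp {C : Subgroup G} {a w : G → F} (ha : SpF C a) (hw : CmF C w) :
    mulF a w = mulF w a := by
  have := Fintype.ofFinite G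
  funext x
  rw [mulF_fin, mulF_fin]
  calc ∑ t, a t * w (t⁻¹ * x) = ∑ t, w (x * t⁻¹) * a t := by
        refine Finset.sum_congr rfl fun t _ => ?_
        by_cases ht : t ∈ C
        · have h := hw t ht (t⁻¹ * x)
          rw [mul_inv_cancel_left] at h
          rw [← h, mul_comm]
        · rw [ha t ht, zero_mul, mul_zero]
    _ = ∑ t, w t * a (t⁻¹ * x) := by
        refine Fintype.sum_equiv ((Equiv.inv G).trans (Equiv.mulLeft x)) _ _ fun t => ?_
        change w (x * t⁻¹) * a t = w (x * t⁻¹) * a ((x * t⁻¹)⁻¹ * x)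
        rw [mul_inv_rev, inv_inv, mul_assoc, inv_mul_cancel, mul_one]

/-- the functions supported on `C` as a subalgebra of the group ring -/
def spA (F : Type) [Field F] {G : Type} [Group G] [Finite G] (C : Subgroup G) :
    Subalgebra F (MonoidAlgebra F G) where
  carrier := {x | ∃ a : G → F, SpF C a ∧ toMA a = x}
  mul_mem' := by
    rintro _ _ ⟨a, ha, rfl⟩ ⟨b, hb, rfl⟩
    refine ⟨mulF a b, ?_, toMA_mulF a b⟩
    have := Fintype.ofFinite G
    intro x hx
    rw [mulF_fin]
    refine Finset.sum_eq_zero fun t _ => ?_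
    by_cases ht : t ∈ C
    · rw [hb (t⁻¹ * x), mul_zero]
      intro h
      exact hx ((C.mul_mem_cancel_left (C.inv_mem ht)).1 h)
    · rw [ha t ht, zero_mul]
  add_mem' := by
    rintro _ _ ⟨a, ha, rfl⟩ ⟨b, hb, rfl⟩
    refine ⟨a + b, fun x hx => ?_, toMA_add a b⟩
    rw [Pi.add_apply, ha x hx, hb x hx, add_zero]
  algebraMap_mem' := by
    classical
    intro r
    refine ⟨fun x => if x = 1 then r else 0, fun x hx => ?_, ?_⟩
    · show (if x = 1 then r else 0) = 0
      rw [if_neg]
      rintro rfl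
      exact hx C.one_mem
    · have := Fintype.ofFinite G
      rw [toMA_eq, Finset.sum_eq_single (1 : G)]
      · rw [if_pos rfl]
        rfl
      · intro b _ hb
        rw [if_neg hb, MonoidAlgebra.single_zero]
      · intro h
        exact absurd (Finset.mem_univ _) h

theorem mem_spA {C : Subgroup G} {a : G → F} : toMA a ∈ spA F C ↔ SpF C a := by
  constructor
  · rintro ⟨b, hb, hab⟩
    rw [← toMA_injective hab]
    exact hb
  · intro h
    exact ⟨a, h, rfl⟩

theorem sp_mulF {C : Subgroup G} {a b : G → F} (ha : SpF C a) (hb : SpF C b) :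
    SpF C (mulF a b) := by
  rw [← mem_spA, toMA_mulF]
  exact (spA F C).mul_mem (mem_spA.2 ha) (mem_spA.2 hb)

theorem sp_pwF {C : Subgroup G} {w a : G → F} (hw : SpF C w) (ha : SpF C a) (s : ℕ) :
    SpF C (pwF w s a) := by
  rw [← mem_spA, toMA_pwF]
  exact (spA F C).mul_mem ((spA F C).pow_mem (mem_spA.2 hw) s) (mem_spA.2 ha)

theorem sp_sum {C : Subgroup G} {ι : Type*} (s : Finset ι) {f : ι → G → F}
    (h : ∀ k ∈ s, SpF C (f k)) : SpF C (∑ k ∈ s, f k) := by
  intro x hx
  rw [Finset.sum_apply]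
  exact Finset.sum_eq_zero fun k hk => h k hk x hx

theorem commute_spA {C : Subgroup G} {w : G → F} (hw : CmF C w) :
    ∀ x ∈ spA F C, toMA w * x = x * toMA w := by
  rintro _ ⟨a, ha, rfl⟩
  rw [← toMA_mulF, ← toMA_mulF, mulF_comm_sp ha hw]

/-- the coefficients of low order of an annihilated polynomial vanish -/
theorem low {R : Type*} [Ring R] [Algebra F R] {w i : R} {q j : ℕ} (hq : w ^ q * i = 0)
    (hnz : w ^ (q - 1) * i ≠ 0) {α : ℕ → F}
    (h : w ^ j * ∑ s ∈ Finset.range q, α s • (w ^ s * i) = 0) :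
    ∀ s, s + j < q → α s = 0 := by
  have hz : ∀ n, q ≤ n → w ^ n * i = 0 := by
    intro n hn
    obtain ⟨m, rfl⟩ := Nat.exists_eq_add_of_le hn
    rw [add_comm q m, pow_add, mul_assoc, hq, mul_zero]
  intro s
  induction s using Nat.strong_induction_on with
  | _ s ih =>
    intro hs
    have h1 : w ^ (q - 1 - s - j) * (w ^ j * ∑ t ∈ Finset.range q, α t • (w ^ t * i)) = 0 := by
      rw [h, mul_zero]
    rw [← mul_assoc, ← pow_add, Finset.mul_sum, Finset.sum_eq_single s] at h1
    · rw [mul_smul_comm, ← mul_assoc, ← pow_add] at h1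
      have h2 : q - 1 - s - j + j + s = q - 1 := by omega
      rw [h2] at h1
      exact (smul_eq_zero.1 h1).resolve_right hnz
    · intro t _ hts
      rcases lt_or_gt_of_ne hts with h3 | h3
      · rw [ih t h3 (by omega), zero_smul, mul_zero]
      · rw [mul_smul_comm, ← mul_assoc, ← pow_add, hz _ (by omega), smul_zero]
    · intro h3
      exact absurd (Finset.mem_range.2 (by omega)) h3

/-- annihilators in `S`, the matrix algebra over `F[w] / (w ^ q)` -/
theorem core {R : Type*} [Ring R] [Algebra F R] (S : Subalgebra F R) {e w i : R} {q : ℕ}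
    (hw : w ∈ S) (hi : i ∈ S) (ce : ∀ a ∈ S, e * a = a * e) (cw : ∀ a ∈ S, w * a = a * w)
    (hei : e * i = i) (nil : w ^ q * e = 0) (nz : w ^ (q - 1) * i ≠ 0)
    (loc : ∀ a ∈ S, ∃ α : ℕ → F, i * (a * i) = ∑ s ∈ Finset.range q, α s • (w ^ s * i))
    {m : ℕ} {x y : Fin m → R} (hx : ∀ k, x k ∈ S) (hy : ∀ k, y k ∈ S)
    (full : ∑ k, x k * (i * y k) = e) {j : ℕ} {a : R} (haS : a ∈ S)
    (ha : e * a = a) (hja : w ^ j * a = 0) : ∃ a' ∈ S, a = w ^ (q - j) * a' := by
  have hq : w ^ q * i = 0 := by rw [← hei, ← mul_assoc, nil, zero_mul]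
  have cwn : ∀ n : ℕ, ∀ b ∈ S, w ^ n * b = b * w ^ n := by
    intro n b hb
    have : Commute w b := cw b hb
    exact (this.pow_left n).eq
  obtain ⟨T, hT⟩ : ∃ T : Submodule F R,
      T = (Subalgebra.toSubmodule S).map (LinearMap.mulLeft F (w ^ (q - j))) := ⟨_, rfl⟩
  have hTm : ∀ z, z ∈ T ↔ ∃ a' ∈ S, w ^ (q - j) * a' = z := by
    intro z
    rw [hT, Submodule.mem_map]
    rfl
  have h1 : a = ∑ k, ∑ l, x k * (i * ((y k * a * x l) * i)) * y l := by
    calc a = e * a * e := by rw [ha, ← ce a haS, ha]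
      _ = (∑ k, x k * (i * y k)) * a * (∑ l, x l * (i * y l)) := by rw [full]
      _ = _ := by
        rw [Finset.sum_mul, Finset.sum_mul]
        refine Finset.sum_congr rfl fun k _ => ?_
        rw [Finset.mul_sum]
        refine Finset.sum_congr rfl fun l _ => ?_
        noncomm_ring
  have h2 : a ∈ T := by
    rw [h1]
    refine Submodule.sum_mem _ fun k _ => Submodule.sum_mem _ fun l _ => ?_
    have hS : y k * a * x l ∈ S := S.mul_mem (S.mul_mem (hy k) haS) (hx l)
    obtain ⟨α, hα⟩ := loc _ hS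
    have h3 : w ^ j * ∑ s ∈ Finset.range q, α s • (w ^ s * i) = 0 := by
      rw [← hα]
      calc w ^ j * (i * (y k * a * x l * i)) = (w ^ j * (i * y k)) * a * x l * i := by noncomm_ring
        _ = ((i * y k) * w ^ j) * a * x l * i := by rw [cwn j _ (S.mul_mem hi (hy k))]
        _ = (i * y k) * (w ^ j * a) * x l * i := by noncomm_ring
        _ = 0 := by rw [hja, mul_zero, zero_mul, zero_mul]
    have h4 := low hq nz h3
    rw [hα, hTm]
    have h5 : ∃ z ∈ S, w ^ (q - j) * z = ∑ s ∈ Finset.range q, α s • (w ^ s * i) := by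
      rw [← hTm]
      refine Submodule.sum_mem _ fun s _ => ?_
      by_cases hs : s + j < q
      · rw [h4 s hs, zero_smul]
        exact zero_mem _
      · refine Submodule.smul_mem _ _ ?_
        rw [hTm]
        refine ⟨w ^ (s - (q - j)) * i, S.mul_mem (S.pow_mem hw _) hi, ?_⟩
        rw [← mul_assoc, ← pow_add]
        congr 2
        omega
    obtain ⟨z, hz, hz2⟩ := h5
    refine ⟨x k * z * y l, S.mul_mem (S.mul_mem (hx k) hz) (hy l), ?_⟩
    rw [← hz2, ← mul_assoc, ← mul_assoc, cwn _ _ (hx k)]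
    noncomm_ring
  rw [hTm] at h2
  obtain ⟨a', ha', h⟩ := h2
  exact ⟨a', ha', h.symm⟩

end Pool.Agent.PP.CD2.H21
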